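import Pool.Agent.Lib.MP_db6a6f_al.AllC

set_option autoImplicit false

/-! For every `n ≥ 3` no finitely generated Coxeter group has a boundary of dimension `n` (over
the integers) and of rational dimension `1`. The dimension of the boundary over `R` is read off
from the cohomology with compact supports of the Davis complex: it is the largest degree in which
this cohomology with coefficients in `R` is not zero, minus one. -/

namespace Pool.Agent.Results.MP_db6a6f_al.RationalDimOne

open Finset

open Classical in
/-- The sign of the element `p` of the finite chain `τ` of a partially ordered set: `(-1)` to the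
number of the elements of `τ` smaller than `p`. -/
noncomputable def sgn {V : Type} [PartialOrder V] (p : V) (τ : Finset V) : ℤ :=
  (-1) ^ (τ.filter (fun q => q < p)).card

open Classical in
/-- The simplicial coboundary of the order complex of the partially ordered set `V` (the simplices
are the finite chains), for cochains with values in the abelian group `R`. -/
noncomputable def cobd {V : Type} [PartialOrder V] {R : Type} [AddCommGroup R]
    (f : Finset V → R) (τ : Finset V) : R :=
  ∑ p ∈ τ, sgn p τ • f (τ.erase p)

variable {m : ℕ}

/-- The special subgroup `W_T` generated by the simple reflections `s_i` with `i ∈ T`. -/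
def special (M : CoxeterMatrix (Fin m)) (T : Finset (Fin m)) : Subgroup M.Group :=
  Subgroup.closure (M.simple '' (T : Set (Fin m)))

/-- The pair `p = (T, D)` is a spherical coset: `W_T` is finite and `D = w W_T` is a left coset of
`W_T`. These pairs, ordered by inclusion in both coordinates, are the vertices of the Davis
complex. -/
def IsSphericalCoset (M : CoxeterMatrix (Fin m)) (p : Finset (Fin m) × Set M.Group) : Prop :=
  Finite (special M p.1) ∧ ∃ w : M.Group, p.2 = {g | w⁻¹ * g ∈ special M p.1}

/-- The simplices of the Davis complex: the finite chains of spherical cosets. The dimension of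
the simplex `τ` is its cardinality minus one. -/
def IsSimplex (M : CoxeterMatrix (Fin m)) (τ : Finset (Finset (Fin m) × Set M.Group)) : Prop :=
  (∀ p ∈ τ, IsSphericalCoset M p) ∧ IsChain (· ≤ ·) (τ : Set (Finset (Fin m) × Set M.Group))

/-- The cohomology with compact supports of the Davis complex with coefficients in `R` vanishes in
degree `k ≥ 1`: every finitely supported simplicial `k`-cocycle is the coboundary of a finitely
supported `(k-1)`-cochain. -/
def HcVanishes (R : Type) [AddCommGroup R] (M : CoxeterMatrix (Fin m)) (k : ℕ) : Prop :=
  ∀ f : Finset (Finset (Fin m) × Set M.Group) → R,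
    {τ | IsSimplex M τ ∧ τ.card = k + 1 ∧ f τ ≠ 0}.Finite →
    (∀ τ, IsSimplex M τ → τ.card = k + 2 → cobd f τ = 0) →
    ∃ g : Finset (Finset (Fin m) × Set M.Group) → R,
      {τ | IsSimplex M τ ∧ τ.card = k ∧ g τ ≠ 0}.Finite ∧
      ∀ τ, IsSimplex M τ → τ.card = k + 1 → f τ = cobd g τ

/-- The boundary of the Coxeter group `M.Group` has dimension `n` over `R`: the largest degree in
which the cohomology with compact supports of the Davis complex with coefficients in `R` does not
vanish is `n + 1`. -/
def BoundaryDim (R : Type) [AddCommGroup R] (M : CoxeterMatrix (Fin m)) (n : ℕ) : Prop :=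
  ¬ HcVanishes R M (n + 1) ∧ ∀ k : ℕ, n < k → HcVanishes R M (k + 1)

theorem isSimplex_iff (M : CoxeterMatrix (Fin m))
    (τ : Finset (Finset (Fin m) × Set M.Group)) :
    IsSimplex M τ ↔ Pool.Agent.Lib.MP_db6a6f_al.IsSimp M τ := by
  unfold IsSimplex Pool.Agent.Lib.MP_db6a6f_al.IsSimp IsSphericalCoset
    Pool.Agent.Lib.MP_db6a6f_al.IsCell
  refine and_congr (forall₂_congr fun p _ => ?_) Iff.rfl
  rw [Pool.Agent.Lib.MP_db6a6f_al.mem_nerve]
  rfl

theorem hcVanishes_iff (R : Type) [AddCommGroup R] (M : CoxeterMatrix (Fin m)) (k : ℕ) :
    HcVanishes R M k ↔ Pool.Agent.Lib.MP_db6a6f_al.HcZ R M k := by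
  unfold HcVanishes Pool.Agent.Lib.MP_db6a6f_al.HcZ
  simp only [isSimplex_iff]
  rfl

/-- Negative answer to Q1, for every `n ≥ 3`: there is no finitely generated Coxeter group whose
boundary has dimension `n` and rational dimension `1`. -/
theorem result : ∀ n : ℕ, 3 ≤ n → ∀ (m : ℕ) (M : CoxeterMatrix (Fin m)),
    ¬ (BoundaryDim ℤ M n ∧ BoundaryDim ℚ M 1) := by
  intro n hn m M h
  refine Pool.Agent.Lib.MP_db6a6f_al.noDimOne n hn m M ?_
  unfold BoundaryDim at h
  simp only [hcVanishes_iff] at h
  exact h

end Pool.Agent.Results.MP_db6a6f_al.RationalDimOne
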